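import Pool.Agent.Helper20.CG.Fin

/-!
# The equality `nu = nu^+` for `t = 4` and `t = 5` over the binary field
-/

namespace Pool.Agent.Results.MP_0d9f17_co.BinaryStrengthFive

open Pool.Agent.Helper38.CCG

/-- Over the field with two elements `nu_t(k;2) = nu_t^+(k;2)` for `t = 4`, `t = 5` and all
`k > t`. -/
theorem result (F : Type) [Field F] [Fintype F] (hF : Fintype.card F = 2) (t k : ℕ)
    (ht : t = 4 ∨ t = 5) (htk : t < k) : nu F t k = nuPlus F t k := by
  have h2 : ∀ a : F, a = 0 ∨ a = 1 := by
    intro a
    have h := FiniteField.pow_card a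
    rw [hF] at h
    have h1 : a * (a - 1) = 0 := by linear_combination h
    rcases mul_eq_zero.1 h1 with h3 | h3
    · exact Or.inl h3
    · exact Or.inr (sub_eq_zero.1 h3)
  rcases ht with rfl | rfl
  · exact Pool.Agent.Helper20.CG.main_four h2 htk
  · exact Pool.Agent.Helper20.CG.main_five h2 htk

end Pool.Agent.Results.MP_0d9f17_co.BinaryStrengthFive
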