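import Pool.Agent.Helper38.CCG.Final

/-!
# For every `t`, the equality `nu = nu^+` holds for all but finitely many pairs `(q, k)`
-/

namespace Pool.Agent.Results.MP_0d9f17_co.FinitelyManyExceptions

open Pool.Agent.Helper38.CCG

/-- For every `t` there is a finite set `E` of pairs, all with `q ^ k < 2 ^ (24 t^4 (t+1))`, such
that `nu_t(k;q) = nu_t^+(k;q)` for every finite field with `q` elements and every `k > t` with
`(q, k)` not in `E`. -/
theorem result (t : ℕ) : ∃ E : Finset (ℕ × ℕ),
    (∀ p ∈ E, p.1 ^ p.2 < 2 ^ (24 * t ^ 4 * (t + 1))) ∧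
    ∀ (F : Type) [Field F] [Fintype F] (k : ℕ), t < k → (Fintype.card F, k) ∉ E →
      nu F t k = nuPlus F t k :=
  main_finset t

end Pool.Agent.Results.MP_0d9f17_co.FinitelyManyExceptions
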