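import Pool.Agent.Helper20.CG.Off3

/-!
# For `t ≤ 6` the two thresholds differ by at most one
-/

namespace Pool.Agent.Results.MP_0d9f17_co.OffByOne

open Pool.Agent.Helper38.CCG

/-- For every finite field, every `k > t` and every `t ≤ 6` the graph `Lambda_t(n,k)` becomes
disconnected at the first length with an isolated code or one length earlier; over the field with
two elements this holds for `t = 7` as well. -/
theorem result (F : Type) [Field F] [Fintype F] (t k : ℕ) (ht3 : 3 ≤ t) (htk : t < k)
    (ht : t ≤ 6 ∨ (t = 7 ∧ Fintype.card F = 2)) :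
    nu F t k ≤ nuPlus F t k ∧ nuPlus F t k ≤ nu F t k + 1 := by
  refine ⟨nu_le_nuPlus htk, ?_⟩
  rcases ht with h | ⟨rfl, hF⟩
  · exact Pool.Agent.Helper20.CG.main_off ht3 h htk
  · have h2 : ∀ a : F, a = 0 ∨ a = 1 := by
      intro a
      have h := FiniteField.pow_card a
      rw [hF] at h
      have h1 : a * (a - 1) = 0 := by linear_combination h
      rcases mul_eq_zero.1 h1 with h3 | h3
      · exact Or.inl h3
      · exact Or.inr (sub_eq_zero.1 h3)
    exact Pool.Agent.Helper20.CG.main_off_seven h2 htk

end Pool.Agent.Results.MP_0d9f17_co.OffByOne
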