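import Pool.Agent.Helper20.CG.Fin

/-!
# The equality `nu = nu^+` for `t = 3`
-/

namespace Pool.Agent.Results.MP_0d9f17_co.StrengthThree

open Pool.Agent.Helper38.CCG

/-- For every finite field and every `k > 3` the graph `Lambda_3(n,k)` becomes disconnected
exactly when an isolated code appears: `nu_3(k;q) = nu_3^+(k;q)`. -/
theorem result (F : Type) [Field F] [Fintype F] (k : ℕ) (hk : 3 < k) :
    nu F 3 k = nuPlus F 3 k :=
  Pool.Agent.Helper20.CG.main_three hk

end Pool.Agent.Results.MP_0d9f17_co.StrengthThree
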